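import Pool.Agent.L5helper65.HK.Ulrich

/-!
# MP_be9c2a_al: the Hilbert–Kunz/F-signature equality and multiplicity at least 3

For every prime `p ≥ 3` and every field `k` of characteristic `p` with finite Frobenius there is a
two-dimensional normal F-finite Gorenstein local domain `A` with `e(A) = e_HK(A) = p` and
`s(A) = 0`, for which all `F^n_* A`, `n ≥ 1`, are Ulrich modules.
-/

set_option autoImplicit false

namespace Pool.Agent.Results.MP_be9c2a_al.LargeMultiplicity

open IsLocalRing Pool.Agent.L5helper65.HK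

theorem result (p : ℕ) [Fact p.Prime] (hp : 3 ≤ p) (k : Type) [Field k] [CharP k p]
    (hk : (frobenius k p).Finite) :
    ∃ (A : Type) (_ : CommRing A) (_ : IsLocalRing A) (_ : CharP A p),
      IsDomain A ∧ IsNoetherianRing A ∧ IsIntegrallyClosed A ∧ (frobenius A p).Finite ∧
      IsGorenstein A ∧ ringKrullDim A = 2 ∧
      (∃ e h s : ℝ, IsMultiplicity A 2 e ∧ IsHilbertKunz A p 2 h ∧ IsFSignature A p 2 s ∧
        h = s + (1 - s) * e ∧ 3 ≤ e ∧ e = p ∧ s = 0) ∧
      ∀ n : ℕ, 1 ≤ n → IsUlrich A (Push A p n) := by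
  refine ⟨Ex p k, inferInstance, inferInstance, inferInstance, inferInstance, inferInstance,
    inferInstance, Ex_ffinite p k hk, gorenstein p ps_reg2, dim p ps_reg2, ⟨p, p, 0,
    mult p ps_reg2, Pool.Agent.L5helper65.HK.hk p ps_reg2, sig p ps_reg2, by ring,
    by exact_mod_cast hp, rfl, rfl⟩, ?_⟩
  intro n hn
  obtain ⟨e, rfl⟩ := Nat.exists_eq_add_of_le' hn
  exact push_ulrich p ps_reg2 (Ex_ffinite p k hk) e

end Pool.Agent.Results.MP_be9c2a_al.LargeMultiplicity
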